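import Pool.Agent.H3.PS.Stm

/-!
Crew PS, part MAP: the states of the sites of the Poisson field.
-/

set_option autoImplicit false

namespace Pool.Agent.H98.PS

open MeasureTheory ProbabilityTheory Filter Topology
open Pool.Agent.H3.PS
open Pool.Agent.Helper581.Sand Pool.Agent.W5h98.Pol
open Pool.Agent.Results.MP_faaa3e_pr.DenseClosedSites (siteLaw)
open scoped ENNReal

lemma stt_meas (g h : ℕ) : Measurable (stt g h) := measurable_of_countable _

lemma one_site (l : NNReal) {g h : ℕ} (hgh : g ≤ h) :
    (poissonMeasure l).map (stt g h) = siteLaw ((poissonMeasure l).real {n | h ≤ n})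
      ((poissonMeasure l).real {n | n < g}) := by
  have hP : IsProbabilityMeasure ((poissonMeasure l).map (stt g h)) :=
    Measure.isProbabilityMeasure_map (stt_meas g h).aemeasurable
  have e0 : (stt g h) ⁻¹' {0} = {n | h ≤ n} := by
    ext n
    simp only [Set.mem_preimage, Set.mem_singleton_iff, Set.mem_ofPred_eq, stt]
    by_cases h1 : n < g
    · simp [h1]
      omega
    · by_cases h2 : h ≤ n
      · simp [h1, h2]
      · simp [h1, h2]
  have e1 : (stt g h) ⁻¹' {1} = {n | n < g} := by
    ext n
    simp only [Set.mem_preimage, Set.mem_singleton_iff, Set.mem_ofPred_eq, stt]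
    by_cases h1 : n < g
    · simp [h1]
    · by_cases h2 : h ≤ n
      · simp [h1, h2]
      · simp [h1, h2]
  have e2 : (stt g h) ⁻¹' {2} = ({n | h ≤ n} ∪ {n | n < g})ᶜ := by
    ext n
    simp only [Set.mem_preimage, Set.mem_singleton_iff, Set.mem_ofPred_eq, stt, Set.mem_compl_iff,
      Set.mem_union, not_or, not_le, not_lt]
    by_cases h1 : n < g
    · simp [h1]
    · by_cases h2 : h ≤ n
      · simp [h1, h2]
      · simp [h1, h2]
        omega
  have hdis : Disjoint {n : ℕ | h ≤ n} {n : ℕ | n < g} := by
    rw [Set.disjoint_left]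
    intro n hn hn'
    have h1 : h ≤ n := hn
    have h2 : n < g := hn'
    omega
  apply Measure.ext_of_singleton
  intro a
  rw [Measure.map_apply (stt_meas g h) (measurableSet_singleton a)]
  unfold siteLaw
  fin_cases a
  · show poissonMeasure l ((stt g h) ⁻¹' {0}) = _
    rw [e0]
    simp
  · show poissonMeasure l ((stt g h) ⁻¹' {1}) = _
    rw [e1]
    simp
  · show poissonMeasure l ((stt g h) ⁻¹' {2}) = _
    rw [e2]
    have h3 : (poissonMeasure l).real ({n | h ≤ n} ∪ {n | n < g})ᶜ =
        1 - (poissonMeasure l).real {n | h ≤ n} - (poissonMeasure l).real {n | n < g} := by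
      rw [probReal_compl_eq_one_sub (MeasurableSet.of_discrete),
        measureReal_union hdis MeasurableSet.of_discrete]
      ring
    rw [← ofReal_measureReal, h3]
    simp

theorem t_MAP : S_MAP := by
  intro d l g h hgh E hE
  have h1 : (poissonField d l).map (fun (ω : V d → ℕ) y => stt g h (ω y)) =
      Measure.infinitePi (fun _ : V d => siteLaw ((poissonMeasure l).real {n | h ≤ n})
        ((poissonMeasure l).real {n | n < g})) := by
    unfold poissonField
    rw [Measure.infinitePi_map_pi (fun _ : V d => poissonMeasure l)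
      (f := fun _ : V d => stt g h) (fun _ => stt_meas g h)]
    congr 1
    funext _
    exact one_site l hgh
  have hm : Measurable (fun (ω : V d → ℕ) y => stt g h (ω y)) := by
    apply measurable_pi_lambda
    intro y
    exact (stt_meas g h).comp (measurable_pi_apply y)
  rw [← h1, map_measureReal_apply hm hE]
  rfl

end Pool.Agent.H98.PS
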